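import Mathlib

/-!
Menger spaces and the inequality `𝔲 < 𝔤`.
-/

set_option autoImplicit false

namespace Pool.Agent.H624.FN

open Set Filter

/-- The Menger property. -/
def Menger (X : Type*) [TopologicalSpace X] : Prop :=
  ∀ U : ℕ → Set (Set X), (∀ n, ∀ u ∈ U n, IsOpen u) → (∀ n, ⋃₀ U n = univ) →
    ∃ V : ℕ → Set (Set X), (∀ n, V n ⊆ U n ∧ (V n).Finite) ∧ (⋃ n, ⋃₀ V n) = univ

/-- A family of infinite subsets of `ℕ` is groupwise dense if it is closed under infinite almost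
subsets and for every partition into finite intervals contains the union of infinitely many
intervals. -/
def GroupwiseDense (D : Set (Set ℕ)) : Prop :=
  (∀ A ∈ D, A.Infinite) ∧
  (∀ A ∈ D, ∀ B : Set ℕ, B.Infinite → (B \ A).Finite → B ∈ D) ∧
  ∀ c : ℕ → ℕ, StrictMono c → ∃ C : Set ℕ, C.Infinite ∧ (⋃ i ∈ C, Ico (c i) (c (i + 1))) ∈ D

/-- The groupwise density number `𝔤`. -/
noncomputable def gNumber : Cardinal.{0} :=
  sInf {κ | ∃ 𝒟 : Set (Set (Set ℕ)), Cardinal.mk 𝒟 = κ ∧ (∀ D ∈ 𝒟, GroupwiseDense D) ∧ ⋂₀ 𝒟 = ∅}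

/-- The ultrafilter number `𝔲`. -/
noncomputable def uNumber : Cardinal.{0} :=
  sInf {κ | ∃ (𝒰 : Ultrafilter ℕ) (𝓑 : Set (Set ℕ)), (𝒰 : Filter ℕ) ≤ cofinite ∧
    Cardinal.mk 𝓑 = κ ∧ (∀ B ∈ 𝓑, B ∈ 𝒰) ∧ ∀ A ∈ 𝒰, ∃ B ∈ 𝓑, B ⊆ A}

theorem exists_common {J : Type} (hJ : Cardinal.mk J < gNumber) (D : J → Set (Set ℕ))
    (hD : ∀ j, GroupwiseDense (D j)) : ∃ A, ∀ j, A ∈ D j := by
  by_contra hcon
  push Not at hcon
  have h1 : gNumber ≤ Cardinal.mk (range D) := by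
    apply csInf_le'
    refine ⟨range D, rfl, ?_, ?_⟩
    · rintro _ ⟨j, rfl⟩
      exact hD j
    · rw [eq_empty_iff_forall_notMem]
      intro A hA
      obtain ⟨j, hj⟩ := hcon A
      exact hj (hA _ (mem_range_self j))
  exact absurd hJ (not_lt.2 (h1.trans Cardinal.mk_range_le))

theorem exists_block {c : ℕ → ℕ} (hc : StrictMono c) {m : ℕ} (h : c 0 ≤ m) :
    ∃ i, c i ≤ m ∧ m < c (i + 1) := by
  have hex : ∃ i, m < c (i + 1) := ⟨m, by
    have := hc.le_apply (x := m + 1)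
    omega⟩
  refine ⟨Nat.find hex, ?_, Nat.find_spec hex⟩
  rcases Nat.eq_zero_or_pos (Nat.find hex) with h0 | h0
  · rw [h0]; exact h
  · have h1 := Nat.find_min hex (m := Nat.find hex - 1) (by omega)
    rw [Nat.sub_add_cancel h0] at h1
    exact not_lt.1 h1

theorem menger_sel {X : Type*} [TopologicalSpace X] (hX : Menger X) (W : ℕ → ℕ → Set X)
    (hWo : ∀ n k, IsOpen (W n k)) (hWm : ∀ n, Monotone (W n)) (hWc : ∀ n x, ∃ k, x ∈ W n k) :
    ∃ g : ℕ → ℕ, ∀ x N, ∃ n, N ≤ n ∧ x ∈ W n (g n) := by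
  classical
  have h1 : ∀ N : ℕ, ∃ g : ℕ → ℕ, ∀ x, ∃ n, N ≤ n ∧ x ∈ W n (g n) := by
    intro N
    obtain ⟨V, hV, hVu⟩ := hX (fun n => range (W (N + n))) (by
      rintro n _ ⟨k, rfl⟩
      exact hWo _ _) (by
      intro n
      rw [eq_univ_iff_forall]
      intro x
      obtain ⟨k, hk⟩ := hWc (N + n) x
      exact ⟨_, mem_range_self k, hk⟩)
    have h2 : ∀ n, ∃ G, ⋃₀ V n ⊆ W (N + n) G := by
      intro n
      have h3 : ∀ v : Set X, ∃ m, v ∈ V n → v = W (N + n) m := by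
        intro v
        by_cases hv : v ∈ V n
        · obtain ⟨m, hm⟩ := (hV n).1 hv
          exact ⟨m, fun _ => hm.symm⟩
        · exact ⟨0, fun h => absurd h hv⟩
      choose μ hμ using h3
      obtain ⟨G, hG⟩ := ((hV n).2.image μ).bddAbove
      refine ⟨G, ?_⟩
      rintro y ⟨v, hv, hyv⟩
      rw [hμ v hv] at hyv
      exact hWm _ (hG ⟨v, hv, rfl⟩) hyv
    choose G hG using h2
    refine ⟨fun n => G (n - N), fun x => ?_⟩
    have hx : x ∈ ⋃ n, ⋃₀ V n := by rw [hVu]; trivial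
    obtain ⟨n, hn⟩ := mem_iUnion.1 hx
    refine ⟨N + n, Nat.le_add_right _ _, ?_⟩
    have h4 := hG n hn
    simpa using h4
  choose g hg using h1
  refine ⟨fun n => (Finset.range (n + 1)).sup fun N => g N n, fun x N => ?_⟩
  obtain ⟨n, hn, hx⟩ := hg N x
  exact ⟨n, hn, hWm n (Finset.le_sup (f := fun N => g N n)
    (Finset.mem_range.2 (Nat.lt_succ_of_le hn))) hx⟩

/-- No element of `A` separates `n` and `b`. -/
def Near (A : Set ℕ) (n b : ℕ) : Prop := ∀ a ∈ A, ¬ (min n b ≤ a ∧ a < max n b)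

theorem gd_of_nm (𝒢 : Set (Set ℕ)) (hNM : ∀ c : ℕ → ℕ, StrictMono c →
      ∃ G ∈ 𝒢, {j | ∀ n ∈ G, ¬ (c j ≤ n ∧ n < c (j + 1))}.Infinite)
    (B : Set ℕ) (hB : B.Infinite) :
    GroupwiseDense {A | A.Infinite ∧ ∃ G ∈ 𝒢, ∃ N, ∀ n ∈ G, N ≤ n → ∃ b ∈ B, Near A n b} := by
  classical
  refine ⟨fun A hA => hA.1, ?_, ?_⟩
  · rintro A ⟨hAi, G, hG, N, hN⟩ B' hB' hfin
    refine ⟨hB', G, hG, ?_⟩
    obtain ⟨M, hM⟩ := hfin.bddAbove
    obtain ⟨a, ha, hMa⟩ := hAi.exists_gt M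
    refine ⟨max N (a + 1), fun n hn hNn => ?_⟩
    obtain ⟨b, hb, hnb⟩ := hN n hn ((le_max_left _ _).trans hNn)
    have han : a + 1 ≤ n := (le_max_right _ _).trans hNn
    have hab : a < b := by
      by_contra hcon
      exact hnb a ha ⟨by omega, by omega⟩
    refine ⟨b, hb, fun a' ha' hcon => ?_⟩
    have h1 : M < a' := by omega
    have h2 : a' ∈ A := by
      by_contra h3
      have := hM (show a' ∈ B' \ A from ⟨ha', h3⟩)
      omega
    exact hnb a' h2 hcon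
  · intro c hc
    have hnext : ∀ m, ∃ k, m < k ∧ ∃ b ∈ B, c (m + 1) ≤ b ∧ b < c k := by
      intro m
      obtain ⟨b, hb, hmb⟩ := hB.exists_gt (c (m + 1))
      refine ⟨max (b + 1) (m + 1), by omega, b, hb, hmb.le, ?_⟩
      have h1 := hc.le_apply (x := max (b + 1) (m + 1))
      omega
    choose nx hnx1 bb hbB hb1 hb2 using hnext
    let k : ℕ → ℕ := fun j => Nat.rec 0 (fun _ x => nx x) j
    have hk : ∀ j, k (j + 1) = nx (k j) := fun j => rfl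
    have hkm : StrictMono k := strictMono_nat_of_lt_succ fun j => by rw [hk]; exact hnx1 _
    obtain ⟨G, hG, hJ⟩ := hNM (fun j => c (k j)) (hc.comp hkm)
    set J : Set ℕ := {j | ∀ n ∈ G, ¬ (c (k j) ≤ n ∧ n < c (k (j + 1)))} with hJdef
    refine ⟨k '' J, hJ.image hkm.injective.injOn, ?_, G, hG, ?_⟩
    · have h1 : (c '' (k '' J)).Infinite :=
        (hJ.image hkm.injective.injOn).image hc.injective.injOn
      apply h1.mono
      rintro _ ⟨_, ⟨j, hj, rfl⟩, rfl⟩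
      exact mem_iUnion₂.2 ⟨k j, ⟨j, hj, rfl⟩, le_rfl, hc (Nat.lt_succ_self _)⟩
    · obtain ⟨j0, hj0⟩ := hJ.nonempty
      refine ⟨c (k j0), fun n hn hNn => ?_⟩
      obtain ⟨j, hj1, hj2⟩ := exists_block (c := fun j => c (k j)) (hc.comp hkm) (m := n)
        (((hc.comp hkm).monotone (Nat.zero_le j0)).trans hNn)
      have hjJ : j ∉ J := fun h => h n hn ⟨hj1, hj2⟩
      have hj0j : j0 < j := by
        rcases lt_trichotomy j0 j with h | h | h
        · exact h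
        · exact absurd (h ▸ hj0) hjJ
        · have h1 : c (k (j + 1)) ≤ c (k j0) := (hc.comp hkm).monotone (show j + 1 ≤ j0 by omega)
          omega
      -- the last element of `J` below `j`
      obtain ⟨j1, hj1J, hj1j, hmax⟩ : ∃ j1 ∈ J, j1 < j ∧ ∀ j2 ∈ J, j2 < j → j2 ≤ j1 := by
        have hne : ((Finset.range j).filter (· ∈ J)).Nonempty :=
          ⟨j0, Finset.mem_filter.2 ⟨Finset.mem_range.2 hj0j, hj0⟩⟩
        have h1 := Finset.max'_mem _ hne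
        rw [Finset.mem_filter, Finset.mem_range] at h1
        exact ⟨_, h1.2, h1.1, fun j2 h2 h3 => Finset.le_max' _ _
          (Finset.mem_filter.2 ⟨Finset.mem_range.2 h3, h2⟩)⟩
      refine ⟨bb (k j1), hbB _, ?_⟩
      have hbn : bb (k j1) < c (k (j1 + 1)) := by rw [hk]; exact hb2 _
      have hc1 : c (k (j1 + 1)) ≤ c (k j) := (hc.comp hkm).monotone (show j1 + 1 ≤ j by omega)
      intro a ha hcon
      obtain ⟨_, ⟨j2, hj2J, rfl⟩, ha1, ha2⟩ := mem_iUnion₂.1 ha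
      have hmin : min n (bb (k j1)) = bb (k j1) := by omega
      have hmaxn : max n (bb (k j1)) = n := by omega
      rw [hmin, hmaxn] at hcon
      have h12 : j1 < j2 := by
        by_contra h
        have h3 : c (k j2 + 1) ≤ c (k j1 + 1) :=
          hc.monotone (Nat.succ_le_succ (hkm.monotone (not_lt.1 h)))
        have h4 := hb1 (k j1)
        omega
      have h2j : j2 ≤ j := by
        by_contra h
        have h3 : c (k (j + 1)) ≤ c (k j2) := (hc.comp hkm).monotone (show j + 1 ≤ j2 by omega)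
        omega
      have h2j' : j2 < j := lt_of_le_of_ne h2j fun h => hjJ (h ▸ hj2J)
      have := hmax j2 hj2J h2j'
      omega

theorem gd_fun (h : ℕ → ℕ) :
    GroupwiseDense {A | A.Infinite ∧ ∀ N, ∃ n, N ≤ n ∧ ∀ a ∈ A, n ≤ a → h n ≤ a} := by
  refine ⟨fun A hA => hA.1, ?_, ?_⟩
  · rintro A ⟨hAi, hA⟩ B hB hfin
    refine ⟨hB, fun N => ?_⟩
    obtain ⟨M, hM⟩ := hfin.bddAbove
    obtain ⟨n, hn, hna⟩ := hA (max N (M + 1))
    refine ⟨n, (le_max_left _ _).trans hn, fun a ha hle => hna a ?_ hle⟩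
    by_contra h3
    have := hM (show a ∈ B \ A from ⟨ha, h3⟩)
    omega
  · intro c hc
    let k : ℕ → ℕ := fun j => Nat.rec 0 (fun _ x => max (x + 1) (h (c (x + 1)))) j
    have hk : ∀ j, k (j + 1) = max (k j + 1) (h (c (k j + 1))) := fun j => rfl
    have hkm : StrictMono k := strictMono_nat_of_lt_succ fun j => by rw [hk]; omega
    refine ⟨range k, infinite_range_of_injective hkm.injective, ?_, ?_⟩
    · have h1 : (c '' (range k)).Infinite :=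
        (infinite_range_of_injective hkm.injective).image hc.injective.injOn
      apply h1.mono
      rintro _ ⟨_, ⟨j, rfl⟩, rfl⟩
      exact mem_iUnion₂.2 ⟨k j, ⟨j, rfl⟩, le_rfl, hc (Nat.lt_succ_self _)⟩
    · intro N
      refine ⟨c (k N + 1), ?_, ?_⟩
      · have h1 := hc.le_apply (x := k N + 1)
        have h2 := hkm.le_apply (x := N)
        omega
      · intro a ha hle
        obtain ⟨_, ⟨i, rfl⟩, ha1, ha2⟩ := mem_iUnion₂.1 ha
        have h12 : N < i := by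
          by_contra hcon
          have h3 : c (k i + 1) ≤ c (k N + 1) :=
            hc.monotone (Nat.succ_le_succ (hkm.monotone (not_lt.1 hcon)))
          omega
        have h4 : k (N + 1) ≤ k i := hkm.monotone h12
        have h5 := hc.le_apply (x := k i)
        have h6 := hk N
        omega

section dom

variable {X : Type*} [TopologicalSpace X]

theorem nm_perp (hX : Menger X) (φ : X → ℕ → ℕ) (hφo : ∀ n k, IsOpen {x | φ x n ≤ k})
    (h : ℕ → ℕ) (hh : ∀ x N, ∃ n, N ≤ n ∧ φ x n ≤ h n) (c : ℕ → ℕ) (hc : StrictMono c) :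
    ∃ G ∈ {T : Set ℕ | ∀ x, (T ∩ {n | φ x n ≤ h n}).Infinite},
      {j | ∀ n ∈ G, ¬ (c j ≤ n ∧ n < c (j + 1))}.Infinite := by
  classical
  let W : ℕ → ℕ → Set X := fun n k => {x | ∃ i i' m m' : ℕ, n ≤ i ∧ i < i' ∧ i' < k ∧
    c i ≤ m ∧ m < c (i + 1) ∧ c i' ≤ m' ∧ m' < c (i' + 1) ∧ φ x m ≤ h m ∧ φ x m' ≤ h m'}
  obtain ⟨g, hg⟩ := menger_sel hX W (by
    intro n k
    have h1 : W n k = ⋃ (i : ℕ) (i' : ℕ) (m : ℕ) (m' : ℕ) (_ : n ≤ i ∧ i < i' ∧ i' < k ∧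
        c i ≤ m ∧ m < c (i + 1) ∧ c i' ≤ m' ∧ m' < c (i' + 1)),
        ({x | φ x m ≤ h m} ∩ {x | φ x m' ≤ h m'}) := by
      ext x
      simp only [W, mem_iUnion, mem_ofPred_eq, mem_inter_iff]
      constructor
      · rintro ⟨i, i', m, m', a1, a2, a3, a4, a5, a6, a7, a8, a9⟩
        exact ⟨i, i', m, m', ⟨a1, a2, a3, a4, a5, a6, a7⟩, a8, a9⟩
      · rintro ⟨i, i', m, m', ⟨a1, a2, a3, a4, a5, a6, a7⟩, a8, a9⟩
        exact ⟨i, i', m, m', a1, a2, a3, a4, a5, a6, a7, a8, a9⟩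
    rw [h1]
    exact isOpen_iUnion fun i => isOpen_iUnion fun i' => isOpen_iUnion fun m =>
      isOpen_iUnion fun m' => isOpen_iUnion fun _ => (hφo _ _).inter (hφo _ _)) (by
    intro n k k' hk x
    rintro ⟨i, i', m, m', a1, a2, a3, a4⟩
    exact ⟨i, i', m, m', a1, a2, a3.trans_le hk, a4⟩) (by
    intro n x
    obtain ⟨m, hm1, hm2⟩ := hh x (c n)
    obtain ⟨i, hi1, hi2⟩ := exists_block hc (m := m) ((hc.monotone (Nat.zero_le n)).trans hm1)
    obtain ⟨m', hm1', hm2'⟩ := hh x (c (i + 1))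
    obtain ⟨i', hi1', hi2'⟩ := exists_block hc (m := m')
      ((hc.monotone (Nat.zero_le (i + 1))).trans hm1')
    refine ⟨i' + 1, i, i', m, m', ?_, ?_, Nat.lt_succ_self _, hi1, hi2, hi1', hi2', hm2, hm2'⟩
    · by_contra hcon
      have h1 : c (i + 1) ≤ c n := hc.monotone (by omega)
      omega
    · by_contra hcon
      have h1 : c (i' + 1) ≤ c (i + 1) := hc.monotone (by omega)
      omega)
  let d : ℕ → ℕ := fun j => Nat.rec 0 (fun _ x => (Finset.range (x + 1)).sup g + x + 1) j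
  have hd : ∀ j, d (j + 1) = (Finset.range (d j + 1)).sup g + d j + 1 := fun j => rfl
  have hdm : StrictMono d := strictMono_nat_of_lt_succ fun j => by rw [hd]; omega
  have hdg : ∀ j n, n ≤ d j → g n < d (j + 1) := by
    intro j n hn
    have h1 : g n ≤ (Finset.range (d j + 1)).sup g :=
      Finset.le_sup (f := g) (Finset.mem_range.2 (Nat.lt_succ_of_le hn))
    rw [hd]; omega
  refine ⟨{m | ∀ j, ¬ (c (d j) ≤ m ∧ m < c (d j + 1))}, ?_, ?_⟩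
  · intro x
    apply Set.infinite_of_forall_exists_gt
    intro N
    obtain ⟨n, hn, i, i', m, m', a1, a2, a3, a4, a5, a6, a7, a8, a9⟩ := hg x (N + 1)
    have key : ∀ i₀ m₀ : ℕ, n ≤ i₀ → c i₀ ≤ m₀ → m₀ < c (i₀ + 1) → φ x m₀ ≤ h m₀ →
        (∀ j, i₀ ≠ d j) → ∃ b ∈ {m | ∀ j, ¬ (c (d j) ≤ m ∧ m < c (d j + 1))} ∩
          {n | φ x n ≤ h n}, N < b := by
      intro i₀ m₀ b1 b2 b3 b4 b5
      refine ⟨m₀, ⟨fun j hj => ?_, b4⟩, ?_⟩
      · rcases lt_trichotomy i₀ (d j) with h1 | h1 | h1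
        · have h2 : c (i₀ + 1) ≤ c (d j) := hc.monotone h1
          omega
        · exact b5 j h1
        · have h2 : c (d j + 1) ≤ c i₀ := hc.monotone h1
          omega
      · have h1 := hc.le_apply (x := i₀)
        omega
    rcases Classical.em (∀ j : ℕ, i ≠ d j) with hi | hi
    · exact key i m a1 a4 a5 a8 hi
    · push Not at hi
      obtain ⟨j, hj⟩ := hi
      apply key i' m' (by omega) a6 a7 a9
      intro j' hj'
      have h1 : j < j' := hdm.lt_iff_lt.1 (by omega)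
      have h2 := hdg j n (by omega)
      have h3 : d (j + 1) ≤ d j' := hdm.monotone h1
      omega
  · apply (infinite_range_of_injective hdm.injective).mono
    rintro _ ⟨j, rfl⟩
    intro n hn
    exact hn j

theorem dom_of_menger (hX : Menger X) (𝒰 : Ultrafilter ℕ) (h𝒰 : (𝒰 : Filter ℕ) ≤ cofinite)
    (𝓑 : Set (Set ℕ)) (h𝓑 : ∀ B ∈ 𝓑, B ∈ 𝒰) (hbase : ∀ A ∈ 𝒰, ∃ B ∈ 𝓑, B ⊆ A)
    (hlt : Cardinal.mk 𝓑 < gNumber) (φ : X → ℕ → ℕ) (hφm : ∀ x, Monotone (φ x))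
    (hφo : ∀ n k, IsOpen {x | φ x n ≤ k}) :
    ∃ F : 𝓑 → ℕ → ℕ, ∀ x, ∃ B, ∀ n, φ x n ≤ F B n := by
  classical
  obtain ⟨h, hh⟩ := menger_sel hX (fun n k => {x | φ x n ≤ k}) hφo
    (fun n k k' hk x hx => le_trans hx hk) (fun n x => ⟨φ x n, le_refl (φ x n)⟩)
  simp only [mem_ofPred_eq] at hh
  have hinf : ∀ B : 𝓑, B.1.Infinite := by
    intro B hfin
    have h1 : B.1ᶜ ∈ (𝒰 : Filter ℕ) := h𝒰 hfin.compl_mem_cofinite
    have h2 : B.1 ∈ (𝒰 : Filter ℕ) := h𝓑 B.1 B.2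
    have h3 := Filter.inter_mem h1 h2
    rw [compl_inter_self] at h3
    exact 𝒰.neBot.ne (Filter.empty_mem_iff_bot.1 h3)
  obtain ⟨A, hA⟩ := exists_common hlt _ fun B : 𝓑 =>
    gd_of_nm _ (fun c hc => nm_perp hX φ hφo h hh c hc) B.1 (hinf B)
  obtain ⟨B₀, hB₀, -⟩ := hbase univ Filter.univ_mem
  have hAi : A.Infinite := (hA ⟨B₀, hB₀⟩).1
  have h1 : ∀ (B : 𝓑) (m : ℕ), ∃ b ∈ B.1, ∃ a ∈ A, m ≤ a ∧ a < b := by
    intro B m
    obtain ⟨a, ha, hma⟩ := hAi.exists_gt m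
    obtain ⟨b, hb, hab⟩ := (hinf B).exists_gt a
    exact ⟨b, hb, a, ha, hma.le, hab⟩
  choose b hbB a haA hma hab using h1
  have h2 : ∀ (B : 𝓑) (m : ℕ), ∃ a' ∈ A, b B m ≤ a' := by
    intro B m
    obtain ⟨a', ha', hba⟩ := hAi.exists_gt (b B m)
    exact ⟨a', ha', hba.le⟩
  choose a' ha'A hba' using h2
  refine ⟨fun B m => (Finset.range (a' B m + 1)).sup h, fun x => ?_⟩
  have h3 : ∃ B : 𝓑, ∀ b ∈ B.1, ∃ n, φ x n ≤ h n ∧ Near A n b := by
    by_cases hP : {m | ∃ n, φ x n ≤ h n ∧ Near A n m} ∈ 𝒰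
    · obtain ⟨B, hB, hBP⟩ := hbase _ hP
      exact ⟨⟨B, hB⟩, fun b hb => hBP hb⟩
    · exfalso
      obtain ⟨B, hB, hBP⟩ := hbase _ (Ultrafilter.compl_mem_iff_notMem.2 hP)
      obtain ⟨-, T, hT, N, hN⟩ := hA ⟨B, hB⟩
      obtain ⟨n, ⟨hn1, hn2⟩, hn3⟩ := (hT x).exists_gt N
      obtain ⟨b, hb, hnb⟩ := hN n hn1 hn3.le
      exact hBP hb ⟨n, hn2, hnb⟩
  obtain ⟨B, hB⟩ := h3
  refine ⟨B, fun m => ?_⟩
  obtain ⟨n, hn1, hn2⟩ := hB (b B m) (hbB B m)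
  have h4 : m ≤ n := by
    by_contra hcon
    have h5 := hn2 (a B m) (haA B m)
    have h6 := hma B m
    have h7 := hab B m
    omega
  have h8 : n ≤ a' B m := by
    by_contra hcon
    have h5 := hn2 (a' B m) (ha'A B m)
    have h6 := hba' B m
    omega
  calc φ x m ≤ φ x n := hφm x h4
    _ ≤ h n := hn1
    _ ≤ _ := Finset.le_sup (f := h) (Finset.mem_range.2 (Nat.lt_succ_of_le h8))

end dom

theorem infinite_base (𝒰 : Ultrafilter ℕ) (h𝒰 : (𝒰 : Filter ℕ) ≤ cofinite)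
    (𝓑 : Set (Set ℕ)) (h𝓑 : ∀ B ∈ 𝓑, B ∈ 𝒰) (hbase : ∀ A ∈ 𝒰, ∃ B ∈ 𝓑, B ⊆ A) :
    𝓑.Infinite := by
  intro hfin
  have h1 : ⋂₀ 𝓑 ∈ (𝒰 : Filter ℕ) := (Filter.sInter_mem hfin).2 h𝓑
  obtain ⟨B₀, hB₀, hsub⟩ := hbase _ h1
  obtain ⟨x, hx⟩ := 𝒰.nonempty_of_mem (h𝓑 B₀ hB₀)
  have h2 : ({x} : Set ℕ)ᶜ ∈ (𝒰 : Filter ℕ) := h𝒰 (finite_singleton x).compl_mem_cofinite
  obtain ⟨B, hB, hBsub⟩ := hbase _ h2
  exact hBsub (hsub hx B hB) rfl

theorem exists_base : ∃ (𝒰 : Ultrafilter ℕ) (𝓑 : Set (Set ℕ)), (𝒰 : Filter ℕ) ≤ cofinite ∧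
    Cardinal.mk 𝓑 = uNumber ∧ (∀ B ∈ 𝓑, B ∈ 𝒰) ∧ ∀ A ∈ 𝒰, ∃ B ∈ 𝓑, B ⊆ A := by
  have h1 : uNumber ∈ {κ | ∃ (𝒰 : Ultrafilter ℕ) (𝓑 : Set (Set ℕ)), (𝒰 : Filter ℕ) ≤ cofinite ∧
    Cardinal.mk 𝓑 = κ ∧ (∀ B ∈ 𝓑, B ∈ 𝒰) ∧ ∀ A ∈ 𝒰, ∃ B ∈ 𝓑, B ⊆ A} := by
    apply csInf_mem
    exact ⟨_, Filter.hyperfilter ℕ, {A | A ∈ Filter.hyperfilter ℕ}, Filter.hyperfilter_le_cofinite,
      rfl, fun B hB => hB, fun A hA => ⟨A, hA, Subset.rfl⟩⟩
  exact h1

section cover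

variable {𝓑 : Set (Set ℕ)} {Z : Set (ℕ × ℕ → Bool)}

theorem step (hD : ∀ φ : Z → ℕ → ℕ, (∀ x, Monotone (φ x)) → (∀ n k, IsOpen {x | φ x n ≤ k}) →
      ∃ F : 𝓑 → ℕ → ℕ, ∀ x, ∃ B, ∀ n, φ x n ≤ F B n)
    (hfin : ∀ z ∈ Z, ∀ n, {m | z (n, m) = true}.Finite)
    (b : ℕ → ℕ → ℕ) (hb : ∀ n, StrictMono (b n)) :
    ∃ b' : 𝓑 → ℕ → ℕ → ℕ, (∀ B n, StrictMono (b' B n)) ∧ ∀ z : Z, ∃ B, ∀ n j, ∃ i,
      b' B n j ≤ b n i ∧ b n (i + 1) ≤ b' B n (j + 1) ∧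
        ∀ m, b n i ≤ m → m < b n (i + 1) → z.1 (n, m) = false := by
  classical
  have hex : ∀ (z : Z) (n a : ℕ), ∃ k, ∃ i, a ≤ b n i ∧ b n (i + 1) ≤ k ∧
      ∀ m ∈ Finset.Ico (b n i) (b n (i + 1)), z.1 (n, m) = false := by
    intro z n a
    obtain ⟨M, hM⟩ := (hfin z.1 z.2 n).bddAbove
    refine ⟨_, max a (M + 1), ?_, le_rfl, ?_⟩
    · have := (hb n).le_apply (x := max a (M + 1))
      omega
    · intro m hm
      rw [Finset.mem_Ico] at hm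
      have h1 := (hb n).le_apply (x := max a (M + 1))
      by_contra hcon
      rw [Bool.not_eq_false] at hcon
      have := hM hcon
      omega
  let t : Z → ℕ → ℕ → ℕ := fun z n a => Nat.find (hex z n a)
  have ht : ∀ z n a, ∃ i, a ≤ b n i ∧ b n (i + 1) ≤ t z n a ∧
      ∀ m ∈ Finset.Ico (b n i) (b n (i + 1)), z.1 (n, m) = false :=
    fun z n a => Nat.find_spec (hex z n a)
  have hto : ∀ n a k, IsOpen {z : Z | t z n a ≤ k} := by
    intro n a k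
    have h1 : {z : Z | t z n a ≤ k} = ⋃ (i : ℕ) (_ : a ≤ b n i ∧ b n (i + 1) ≤ k),
        ⋂ m ∈ Finset.Ico (b n i) (b n (i + 1)), {z : Z | z.1 (n, m) = false} := by
      ext z
      simp only [mem_ofPred_eq, mem_iUnion, mem_iInter, exists_prop]
      constructor
      · intro h
        obtain ⟨i, h1, h2, h3⟩ := ht z n a
        exact ⟨i, ⟨h1, h2.trans h⟩, h3⟩
      · rintro ⟨i, ⟨h1, h2⟩, h3⟩
        exact Nat.find_min' _ ⟨i, h1, h2, h3⟩
    rw [h1]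
    refine isOpen_iUnion fun i => isOpen_iUnion fun _ => isOpen_biInter_finset fun m _ => ?_
    have hcont : Continuous fun z : Z => z.1 (n, m) := (continuous_apply (n, m)).comp
      continuous_subtype_val
    exact (isOpen_discrete {false}).preimage hcont
  obtain ⟨F, hF⟩ := hD (fun z N => (Finset.range (N + 1) ×ˢ Finset.range (N + 1)).sup
      fun p => t z p.1 p.2) (by
    intro z N N' hN
    apply Finset.sup_mono
    exact Finset.product_subset_product (Finset.range_mono (by omega))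
      (Finset.range_mono (by omega))) (by
    intro N k
    have h1 : {z : Z | ((Finset.range (N + 1) ×ˢ Finset.range (N + 1)).sup
      fun p => t z p.1 p.2) ≤ k} = ⋂ p ∈ Finset.range (N + 1) ×ˢ Finset.range (N + 1),
        {z : Z | t z p.1 p.2 ≤ k} := by
      ext z
      simp only [mem_ofPred_eq, Finset.sup_le_iff, mem_iInter]
    rw [h1]
    exact isOpen_biInter_finset fun p _ => hto _ _ _)
  let b' : 𝓑 → ℕ → ℕ → ℕ := fun B n j =>
    Nat.rec 0 (fun _ x => max (F B (max n x)) x + 1) j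
  have hb' : ∀ B n j, b' B n (j + 1) = max (F B (max n (b' B n j))) (b' B n j) + 1 :=
    fun B n j => rfl
  refine ⟨b', fun B n => strictMono_nat_of_lt_succ fun j => by rw [hb']; omega, fun z => ?_⟩
  obtain ⟨B, hB⟩ := hF z
  refine ⟨B, fun n j => ?_⟩
  obtain ⟨i, h1, h2, h3⟩ := ht z n (b' B n j)
  refine ⟨i, h1, ?_, fun m hm1 hm2 => h3 m (Finset.mem_Ico.2 ⟨hm1, hm2⟩)⟩
  have h4 : t z n (b' B n j) ≤ F B (max n (b' B n j)) := by
    refine le_trans ?_ (hB (max n (b' B n j)))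
    exact Finset.le_sup (f := fun p : ℕ × ℕ => t z p.1 p.2) (b := (n, b' B n j))
      (Finset.mem_product.2 ⟨Finset.mem_range.2 (by simp only; omega),
        Finset.mem_range.2 (by simp only; omega)⟩)
  rw [hb']
  omega

end cover

/-- Under `𝔲 < 𝔤` a Menger family of sets with finite columns does not cover, by finite unions, all
regions below graphs of functions. -/
theorem not_covering (hug : uNumber < gNumber) (Z : Set (ℕ × ℕ → Bool)) (hZ : Menger Z)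
    (hfin : ∀ z ∈ Z, ∀ n, {m | z (n, m) = true}.Finite) :
    ∃ g : ℕ → ℕ, ∀ F : Finset (ℕ × ℕ → Bool), (F : Set (ℕ × ℕ → Bool)) ⊆ Z →
      ∃ n m, m < g n ∧ ∀ z ∈ F, z (n, m) = false := by
  classical
  obtain ⟨𝒰, 𝓑, h𝒰, hcard, h𝓑, hbase⟩ := exists_base
  have hlt : Cardinal.mk 𝓑 < gNumber := by rw [hcard]; exact hug
  have hinf : Cardinal.aleph0 ≤ Cardinal.mk 𝓑 :=
    Cardinal.infinite_iff.1 (infinite_base 𝒰 h𝒰 𝓑 h𝓑 hbase).to_subtype
  have hstep : ∀ b : {b : ℕ → ℕ → ℕ // ∀ n, StrictMono (b n)},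
      ∃ b' : 𝓑 → {b : ℕ → ℕ → ℕ // ∀ n, StrictMono (b n)}, ∀ z : Z, ∃ B, ∀ n j, ∃ i,
        (b' B).1 n j ≤ b.1 n i ∧ b.1 n (i + 1) ≤ (b' B).1 n (j + 1) ∧
          ∀ m, b.1 n i ≤ m → m < b.1 n (i + 1) → z.1 (n, m) = false := by
    intro b
    obtain ⟨b', h1, h2⟩ := step (𝓑 := 𝓑) (dom_of_menger hZ 𝒰 h𝒰 𝓑 h𝓑 hbase hlt) hfin b.1 b.2
    exact ⟨fun B => ⟨b' B, h1 B⟩, h2⟩
  choose nxt hnxt using hstep
  let blk : List 𝓑 → {b : ℕ → ℕ → ℕ // ∀ n, StrictMono (b n)} :=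
    fun l => l.foldr (fun B b => nxt b B) ⟨fun _ j => j, fun _ => strictMono_id⟩
  have hblk : ∀ L : List Z, ∃ l : List 𝓑, ∀ n j, ∃ m, (blk l).1 n j ≤ m ∧
      m < (blk l).1 n (j + 1) ∧ ∀ z ∈ L, z.1 (n, m) = false := by
    intro L
    induction L with
    | nil =>
      refine ⟨[], fun n j => ⟨j, le_rfl, Nat.lt_succ_self j, ?_⟩⟩
      simp
    | cons z L ih =>
      obtain ⟨l, hl⟩ := ih
      obtain ⟨B, hB⟩ := hnxt (blk l) z
      refine ⟨B :: l, fun n j => ?_⟩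
      obtain ⟨i, h1, h2, h3⟩ := hB n j
      obtain ⟨m, hm1, hm2, hm3⟩ := hl n i
      refine ⟨m, h1.trans hm1, hm2.trans_le h2, fun z' hz' => ?_⟩
      rcases List.mem_cons.1 hz' with rfl | hz'
      · exact h3 m hm1 hm2
      · exact hm3 z' hz'
  have hlist : Cardinal.mk (List 𝓑) < gNumber := by
    refine lt_of_le_of_lt (Cardinal.mk_list_le_max 𝓑) ?_
    rw [max_eq_right hinf]
    exact hlt
  obtain ⟨A, hA⟩ := exists_common hlist _ fun l : List 𝓑 => gd_fun fun n => (blk l).1 n 1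
  have hAi : A.Infinite := (hA []).1
  have h1 : ∀ n, ∃ a ∈ A, n ≤ a := fun n => by
    obtain ⟨a, ha, hna⟩ := hAi.exists_gt n
    exact ⟨a, ha, hna.le⟩
  choose g hgA hgn using h1
  refine ⟨g, fun F hF => ?_⟩
  let L : List Z := F.toList.attach.map fun z => ⟨z.1, hF (by
    have := z.2
    rw [Finset.mem_toList] at this
    exact this)⟩
  obtain ⟨l, hl⟩ := hblk L
  obtain ⟨n, -, hn⟩ := (hA l).2 0
  obtain ⟨m, hm1, hm2, hm3⟩ := hl n 0
  refine ⟨n, m, hm2.trans_le (hn _ (hgA n) (hgn n)), fun z hz => ?_⟩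
  have hz' : z ∈ F.toList := Finset.mem_toList.2 hz
  exact hm3 ⟨z, hF hz⟩ (List.mem_map.2 ⟨⟨z, hz'⟩, List.mem_attach _ _, rfl⟩)

end Pool.Agent.H624.FN
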